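import Pool.Agent.K.MP_5b4d81_al.C0

set_option autoImplicit false

namespace Pool.Agent.Results.MP_5b4d81_al.Polylog

open Pool.Agent.P.MP_5b4d81_al

universe u

theorem result (N : Type u) [Group N] [Group.IsNilpotent N]
    (htf : ∀ (g : N) (n : ℕ), 0 < n → g ^ n = 1 → g = 1)
    (S : Finset N) (hS : Subgroup.closure (S : Set N) = ⊤) (H : Subgroup N) :
    ∃ k : ℕ, k ≤ hirschLength N ∧
      Preceq (fun n => (sepGrowth H S n : ℝ)) (fun n => Real.log n ^ k) ∧
      Preceq (fun n => Real.log n ^ k) (fun n => (sepGrowth H S n : ℝ)) :=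
  main htf S hS H

end Pool.Agent.Results.MP_5b4d81_al.Polylog
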